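import Pool.Agent.H5.OR.Targets

/-!
# Isomorphism problem for one-relator groups (MP_e1fd52_al): row MA
-/

set_option autoImplicit false

namespace Pool.Agent.H89.OR

open ORg

/-- the colour of a ray is the colour of the half tree which contains it -/
theorem ray_colour {X : Type} (U : FreeGroup X → Bool) (u : ℤ → FreeGroup X)
    (hinj : Function.Injective u) (g : FreeGroup X) (c₀ : Bool) (hcol : Col U u g c₀)
    (x : X × Bool) (c : Bool) (hfin : {h | h ∈ Cn 1 x ∧ U h ≠ c}.Finite)
    (f : ℕ → ℤ) (hf : Function.Injective f) (hlarge : ∀ N : ℕ, (N : ℤ) ≤ |f N|)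
    (hin : ∀ N : ℕ, g * u (f N) ∈ Cn 1 x) : c = c₀ := by
  by_contra hne
  obtain ⟨N₀, hN₀⟩ := hcol
  have hsub : Set.range (fun k : ℕ => g * u (f (N₀ + k))) ⊆ {h | h ∈ Cn 1 x ∧ U h ≠ c} := by
    rintro h ⟨k, rfl⟩
    refine ⟨hin _, ?_⟩
    have h1 : (N₀ : ℤ) ≤ |f (N₀ + k)| := by
      have := hlarge (N₀ + k)
      push_cast at this
      have h2 : (0 : ℤ) ≤ (k : ℤ) := Int.natCast_nonneg k
      linarith
    have h3 : U (g * u (f (N₀ + k))) = c₀ := hN₀ _ h1
    show U (g * u (f (N₀ + k))) ≠ c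
    rw [h3]
    exact fun h => hne h.symm
  have hinf : (Set.range (fun k : ℕ => g * u (f (N₀ + k)))).Infinite := by
    apply Set.infinite_range_of_injective
    intro a b hab
    have h1 : u (f (N₀ + a)) = u (f (N₀ + b)) := mul_left_cancel hab
    have h2 := hf (hinj h1)
    omega
  exact hinf (hfin.subset hsub)

/-- MA: all lines have one colour and there are finitely many changes of colour -/
theorem pf_MA (CA : T_CA) (CL : T_CL) (MM : T_MM) : T_MA := by
  intro X _ _ w L lt u hLn hWh U hCol hfin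
  obtain ⟨hC1, -, -, -, hC5, -, -⟩ := CA X (1 : FreeGroup X)
  obtain ⟨hL1, hL2, hinj, -, -, -, -, -⟩ := CL X w L lt u hLn
  have hx : ∀ x : X × Bool, ∃ c, {g | g ∈ Cn (1 : FreeGroup X) x ∧ U g ≠ c}.Finite := by
    intro x
    refine MM X w L lt u hLn hWh U 1 x (fun g _ _ => hCol g) (hfin.subset ?_)
    rintro g ⟨_, y, _, hy⟩
    exact ⟨y, hy⟩
  choose c hc using hx
  -- the ends of the lines through `1`
  have hedge : ∀ i : ℤ, c (nv (lt (i - 1))) = c (lt i) := by
    intro i
    obtain ⟨c₀, hc₀⟩ := hCol (u i)⁻¹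
    have hC5' := (CA X (u i)).2.2.2.2.1 (u i)⁻¹
    have e1 : c (lt i) = c₀ := by
      refine ray_colour U u hinj (u i)⁻¹ c₀ hc₀ (lt i) _ (hc (lt i))
        (fun N => (N : ℤ) + 1 + |i|) ?_ ?_ ?_
      · intro a b hab
        have : ((a : ℤ) + 1 + |i|) = (b : ℤ) + 1 + |i| := hab
        omega
      · intro N
        have h1 : (0 : ℤ) ≤ |i| := abs_nonneg i
        rw [abs_of_nonneg (by positivity)]
        linarith
      · intro N
        have h1 : i ≤ |i| := le_abs_self i
        have h2 : i < (N : ℤ) + 1 + |i| := by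
          have : (0 : ℤ) ≤ (N : ℤ) := Int.natCast_nonneg N
          linarith
        have h3 := hL1 i _ h2
        have h4 := (hC5' (u ((N : ℤ) + 1 + |i|)) (lt i)).2 h3
        rwa [inv_mul_cancel] at h4
    have e2 : c (nv (lt (i - 1))) = c₀ := by
      refine ray_colour U u hinj (u i)⁻¹ c₀ hc₀ (nv (lt (i - 1))) _ (hc (nv (lt (i - 1))))
        (fun N => -((N : ℤ) + 1 + |i|)) ?_ ?_ ?_
      · intro a b hab
        have : -((a : ℤ) + 1 + |i|) = -((b : ℤ) + 1 + |i|) := hab
        omega
      · intro N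
        have h1 : (0 : ℤ) ≤ |i| := abs_nonneg i
        rw [abs_neg, abs_of_nonneg (by positivity)]
        linarith
      · intro N
        have h1 : -i ≤ |i| := neg_le_abs i
        have h2 : -((N : ℤ) + 1 + |i|) < i := by
          have : (0 : ℤ) ≤ (N : ℤ) := Int.natCast_nonneg N
          linarith
        have h3 := hL2 i _ h2
        have h4 := (hC5' (u (-((N : ℤ) + 1 + |i|))) (nv (lt (i - 1)))).2 h3
        rwa [inv_mul_cancel] at h4
    rw [e1, e2]
  -- all letters have the same colour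
  have hall : ∀ x y : X × Bool, c x = c y := by
    intro x y
    have hz : ∃ z : X × Bool, x ≠ z ∧ y ≠ z := by
      by_cases hxy : x.1 = y.1
      · obtain ⟨a, ha⟩ := exists_ne x.1
        refine ⟨(a, true), fun h => ha ?_, fun h => ha ?_⟩
        · rw [h]
        · rw [hxy, h]
      · refine ⟨(x.1, !x.2), fun h => ?_, fun h => hxy ?_⟩
        · have : x.2 = !x.2 := congrArg Prod.snd h
          revert this
          cases x.2 <;> simp
        · exact (congrArg Prod.fst h).symm
    obtain ⟨z, hz1, hz2⟩ := hz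
    have hr := hWh z x y hz1 hz2
    induction hr with
    | refl => rfl
    | @tail s t _ hst ih =>
      have ih' : c x = c s := ih hst.1
      rw [ih']
      obtain ⟨_, _, i, h | h⟩ := hst
      · rw [h.1, h.2]; exact hedge i
      · rw [h.1, h.2]; exact (hedge i).symm
  obtain ⟨a⟩ : Nonempty X := inferInstance
  refine ⟨c (a, true), ?_⟩
  have hun : ({1} ∪ ⋃ x : X × Bool, {g | g ∈ Cn (1 : FreeGroup X) x ∧ U g ≠ c x}).Finite :=
    (Set.finite_singleton _).union (Set.finite_iUnion hc)
  refine hun.subset ?_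
  intro g hg
  rcases hC1 g with h | ⟨x, h⟩
  · exact Or.inl h
  · refine Or.inr (Set.mem_iUnion.2 ⟨x, h, ?_⟩)
    rw [hall x (a, true)]
    exact hg

end Pool.Agent.H89.OR
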