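import Pool.Agent.H5.OR.Targets3

/-!
# Row SV of ors_modules (MP_e1fd52_al): the tree of a star of groups, from the side functions
-/

set_option autoImplicit false

open scoped Classical

namespace Pool.Agent.H89.OR.SV

open ORg

section

variable {G I : Type} [Group G] (A : Subgroup G) (B : I → Subgroup G)

/-- the vertices -/
abbrev VV : Type := (G ⧸ A) ⊕ (Σ i, G ⧸ B i)

/-- the red vertices -/
def vr (g : G) : VV A B := Sum.inl (QuotientGroup.mk g)

/-- the blue vertices -/
def vb (i : I) (g : G) : VV A B := Sum.inr ⟨i, QuotientGroup.mk g⟩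

/-- the graph -/
def Gr : SimpleGraph (VV A B) where
  Adj u v := ∃ (g : G) (i : I), (u = vr A B g ∧ v = vb A B i g) ∨ (u = vb A B i g ∧ v = vr A B g)
  symm := by
    constructor
    rintro u v ⟨g, i, h⟩
    exact ⟨g, i, h.symm.imp (fun h => ⟨h.2, h.1⟩) (fun h => ⟨h.2, h.1⟩)⟩
  loopless := by
    constructor
    rintro u ⟨g, i, ⟨h1, h2⟩ | ⟨h1, h2⟩⟩
    · rw [h1] at h2
      exact absurd h2 (by simp [vr, vb])
    · rw [h1] at h2
      exact absurd h2 (by simp [vr, vb])

theorem vr_eq (g h : G) : vr A B g = vr A B h ↔ g⁻¹ * h ∈ A := by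
  unfold vr
  rw [Sum.inl.injEq]
  exact QuotientGroup.eq

theorem vb_eq (i : I) (g h : G) : vb A B i g = vb A B i h ↔ g⁻¹ * h ∈ B i := by
  unfold vb
  rw [Sum.inr.injEq, sigma_mk_injective.eq_iff]
  exact QuotientGroup.eq

theorem vb_idx (i j : I) (g h : G) (e : vb A B i g = vb A B j h) : i = j := by
  unfold vb at e
  rw [Sum.inr.injEq] at e
  exact congrArg Sigma.fst e

theorem smul_vr (g h : G) : g • vr A B h = vr A B (g * h) := rfl

theorem smul_vb (i : I) (g h : G) : g • vb A B i h = vb A B i (g * h) := rfl

theorem adj_base (i : I) (g : G) : (Gr A B).Adj (vr A B g) (vb A B i g) :=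
  ⟨g, i, Or.inl ⟨rfl, rfl⟩⟩

variable {A B}

theorem conn (hgen : A ⊔ ⨆ i, B i = ⊤) : (Gr A B).Connected := by
  let K : Subgroup G :=
    { carrier := {g | ∀ x : G, (Gr A B).Reachable (vr A B x) (vr A B (x * g))}
      one_mem' := by
        intro x
        rw [mul_one]
      mul_mem' := by
        intro g h hg hh x
        rw [← mul_assoc]
        exact (hg x).trans (hh (x * g))
      inv_mem' := by
        intro g hg x
        have := (hg (x * g⁻¹)).symm
        rwa [inv_mul_cancel_right] at this }
  have hA : A ≤ K := by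
    intro g hg x
    have : vr A B x = vr A B (x * g) := by
      rw [vr_eq]
      simpa using hg
    rw [← this]
  have hB : ∀ i, B i ≤ K := by
    intro i g hg x
    have : vb A B i x = vb A B i (x * g) := by
      rw [vb_eq]
      simpa using hg
    refine ((adj_base A B i x).reachable).trans ?_
    rw [this]
    exact ((adj_base A B i (x * g)).symm.reachable)
  have hK : ∀ g : G, g ∈ K := by
    intro g
    have h1 : A ⊔ ⨆ i, B i ≤ K := sup_le hA (iSup_le hB)
    rw [hgen] at h1
    exact h1 (Subgroup.mem_top g)
  have h1 : ∀ g : G, (Gr A B).Reachable (vr A B 1) (vr A B g) := by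
    intro g
    have := hK g 1
    rwa [one_mul] at this
  have h2 : ∀ v, (Gr A B).Reachable (vr A B 1) v := by
    rintro (v | ⟨i, v⟩)
    · induction v using QuotientGroup.induction_on with
      | H g => exact h1 g
    · induction v using QuotientGroup.induction_on with
      | H g => exact (h1 g).trans (adj_base A B i g).reachable
  have : Nonempty (VV A B) := ⟨vr A B 1⟩
  exact ⟨fun u v => (h2 u).symm.trans (h2 v)⟩

end

theorem pf_SV : T_SV := by
  intro G I _ A B C τ hgen hCA hCB h1 hA hBn hB
  refine ⟨fun i => ?_, ?_⟩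
  · apply le_antisymm
    · intro x hx
      have e1 := hA i 1 x hx.1
      have e2 := hB i 1 x hx.2
      rw [one_mul] at e1 e2
      rw [e1, h1] at e2
      have h1C : (1 : G) ∈ C i := (C i).one_mem
      simpa [h1C] using e2
    · exact le_inf (hCA i) (hCB i)
  · have hbr : ∀ (i : I) (h : G), (Gr A B).IsBridge s(vr A B h, vb A B i h) := by
      intro i h
      -- the sides
      have hsA : ∀ g h : G, (QuotientGroup.leftRel A) g h → τ i g = τ i h := by
        intro g h hgh
        have hm : g⁻¹ * h ∈ A := QuotientGroup.leftRel_apply.1 hgh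
        have := hA i g _ hm
        rw [mul_inv_cancel_left] at this
        exact this.symm
      have hsB : ∀ (j : I) (g h : G), (QuotientGroup.leftRel (B j)) g h →
          (if j = i then xor (τ i g) (decide (g ∈ C i)) else τ i g) =
            (if j = i then xor (τ i h) (decide (h ∈ C i)) else τ i h) := by
        intro j g h hgh
        have hm : g⁻¹ * h ∈ B j := QuotientGroup.leftRel_apply.1 hgh
        by_cases hji : j = i
        · rw [if_pos hji, if_pos hji]
          rw [hji] at hm
          have := hB i g _ hm
          rw [mul_inv_cancel_left] at this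
          exact this.symm
        · rw [if_neg hji, if_neg hji]
          have := hBn i j g hji _ hm
          rw [mul_inv_cancel_left] at this
          exact this.symm
      let s : VV A B → Bool := Sum.elim (Quotient.lift (τ i) hsA)
        (fun p => Quotient.lift
          (fun g => if p.1 = i then xor (τ i g) (decide (g ∈ C i)) else τ i g) (hsB p.1) p.2)
      have hsr : ∀ g, s (vr A B g) = τ i g := fun g => rfl
      have hsb : ∀ j g, s (vb A B j g) =
          if j = i then xor (τ i g) (decide (g ∈ C i)) else τ i g := fun j g => rfl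
      have hne : ∀ j g, s (vr A B g) ≠ s (vb A B j g) → j = i ∧ g ∈ C i := by
        intro j g hg
        rw [hsr, hsb] at hg
        by_cases hji : j = i
        · refine ⟨hji, ?_⟩
          rw [if_pos hji] at hg
          by_contra hC
          apply hg
          simp [hC]
        · rw [if_neg hji] at hg
          exact absurd rfl hg
      rw [SimpleGraph.isBridge_iff]
      rintro ⟨p⟩
      have hconst : ∀ u v, ((Gr A B).deleteEdges {s(vr A B h, vb A B i h)}).Adj u v →
          s (h⁻¹ • u) = s (h⁻¹ • v) := by
        intro u v huv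
        rw [SimpleGraph.deleteEdges_adj] at huv
        obtain ⟨⟨g, j, hg⟩, hn⟩ := huv
        by_contra hcon
        apply hn
        have hgC : j = i ∧ h⁻¹ * g ∈ C i := by
          rcases hg with ⟨rfl, rfl⟩ | ⟨rfl, rfl⟩
          · rw [smul_vr, smul_vb] at hcon
            exact hne _ _ hcon
          · rw [smul_vr, smul_vb] at hcon
            exact hne _ _ (Ne.symm hcon)
        obtain ⟨rfl, hgC⟩ := hgC
        have e1 : vr A B h = vr A B g := (vr_eq A B h g).2 (hCA j hgC)
        have e2 : vb A B j h = vb A B j g := (vb_eq A B j h g).2 (hCB j hgC)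
        rcases hg with ⟨rfl, rfl⟩ | ⟨rfl, rfl⟩
        · rw [← e1, ← e2]; rfl
        · rw [← e1, ← e2]
          exact Sym2.eq_swap
      have hwalk : ∀ u v, ((Gr A B).deleteEdges {s(vr A B h, vb A B i h)}).Walk u v →
          s (h⁻¹ • u) = s (h⁻¹ • v) := by
        intro u v q
        induction q with
        | nil => rfl
        | cons h' _ ih => exact (hconst _ _ h').trans ih
      have := hwalk _ _ p
      rw [smul_vr, smul_vb, inv_mul_cancel, hsr, hsb, h1] at this
      simp [(C i).one_mem] at this
    have htree : (Gr A B).IsTree := by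
      refine ⟨conn hgen, ?_⟩
      rw [SimpleGraph.isAcyclic_iff_forall_adj_isBridge]
      rintro u v ⟨g, i, ⟨rfl, rfl⟩ | ⟨rfl, rfl⟩⟩
      · exact hbr i g
      · rw [Sym2.eq_swap]
        exact hbr i g
    let S : GTree G :=
      { V := VV A B
        T := Gr A B
        tree := htree
        adj := by
          rintro x u v ⟨g, i, ⟨rfl, rfl⟩ | ⟨rfl, rfl⟩⟩
          · exact ⟨x * g, i, Or.inl ⟨rfl, rfl⟩⟩
          · exact ⟨x * g, i, Or.inr ⟨rfl, rfl⟩⟩
        red := fun v => v.isLeft = true
        red_smul := by
          rintro g (v | v)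
          · exact Iff.rfl
          · exact Iff.rfl
        red_adj := by
          rintro u v ⟨g, i, ⟨rfl, rfl⟩ | ⟨rfl, rfl⟩⟩
          · simp [vr, vb]
          · simp [vr, vb] }
    refine ⟨S, vr A B 1, fun i => vb A B i 1, ?_⟩
    refine ⟨rfl, fun i => adj_base A B i 1, ?_, ?_, ?_, ?_⟩
    · intro g
      change g • vr A B 1 = vr A B 1 ↔ _
      rw [smul_vr, vr_eq]
      simp
    · intro i g
      change g • vb A B i 1 = vb A B i 1 ↔ _
      rw [smul_vb, vb_eq]
      simp
    · rintro u v hu ⟨g, i, ⟨rfl, rfl⟩ | ⟨rfl, rfl⟩⟩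
      · refine ⟨g, i, ?_, ?_⟩
        · change vr A B g = g • vr A B 1
          rw [smul_vr, mul_one]
        · change vb A B i g = g • vb A B i 1
          rw [smul_vb, mul_one]
      · exact absurd hu (by change ¬ ((vb A B i g).isLeft = true); simp [vb])
    · intro i j g e
      change g • vb A B i 1 = vb A B j 1 at e
      rw [smul_vb] at e
      exact vb_idx A B i j _ _ e

end Pool.Agent.H89.OR.SV
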